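import Mathlib

/-!
MP_435f72_co, Q1 (disproof): the number of non-equivalent parameterized squares in a string of
length `n` can be quadratic in `n`.
-/

set_option autoImplicit false

namespace Pool.Agent.Results.MP_435f72_co.QuadraticPS

/-- parameterized equivalence of strings over the alphabet `A` -/
def PEquiv {A : Type} (x y : List A) : Prop := ∃ f : Equiv.Perm A, x.map f = y

/-- parameterized squares -/
def PSq {A : Type} (w : List A) : Prop := ∃ x y : List A, x ≠ [] ∧ w = x ++ y ∧ PEquiv x y

/-- number of equivalence classes of parameterized squares occurring in `s` -/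
noncomputable def PS {A : Type} (s : List A) : ℕ :=
  {C : Set (List A) | ∃ w, w <:+: s ∧ PSq w ∧ C = {v | PEquiv w v}}.ncard

/-- the letters of the string -/
def let' (g : ℕ) (j : ℕ) : ℕ :=
  if g ^ 2 < j ∧ (j - g ^ 2) % (g + 1) = 0 then (j - g ^ 2) / (g + 1) * g else j

theorem let_lt (g j : ℕ) (hj : j < 2 * g ^ 2) : let' g j < 2 * g ^ 2 := by
  unfold let'
  split_ifs with h
  · have h1 : (j - g ^ 2) / (g + 1) * (g + 1) ≤ j - g ^ 2 := Nat.div_mul_le_self _ _
    have h2 : (j - g ^ 2) / (g + 1) * g ≤ (j - g ^ 2) / (g + 1) * (g + 1) :=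
      Nat.mul_le_mul_left _ (by omega)
    omega
  · exact hj

/-- equal letters at `a < b`: they form one of the pairs -/
theorem let_eq (g a b : ℕ) (hab : a < b) (hb : b < 2 * g ^ 2) (h : let' g a = let' g b) :
    ∃ m, 1 ≤ m ∧ a = m * g ∧ b = m * g + m + g ^ 2 := by
  unfold let' at h
  split_ifs at h with h1 h2 h2
  · -- both are second elements
    obtain ⟨h1a, h1b⟩ := h1
    obtain ⟨h2a, h2b⟩ := h2
    have e1 := Nat.div_add_mod (a - g ^ 2) (g + 1)
    have e2 := Nat.div_add_mod (b - g ^ 2) (g + 1)
    rw [h1b] at e1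
    rw [h2b] at e2
    have hg : 0 < g := by
      by_contra hg
      have : g = 0 := by omega
      subst this
      omega
    have h3 := Nat.eq_of_mul_eq_mul_right hg h
    rw [h3] at e1
    omega
  · -- `a` second element, `b` not: impossible
    obtain ⟨h1a, h1b⟩ := h1
    exfalso
    have h3 : (a - g ^ 2) / (g + 1) * (g + 1) ≤ a - g ^ 2 := Nat.div_mul_le_self _ _
    have h4 : (a - g ^ 2) / (g + 1) * g ≤ (a - g ^ 2) / (g + 1) * (g + 1) :=
      Nat.mul_le_mul_left _ (by omega)
    omega
  · obtain ⟨h2a, h2b⟩ := h2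
    have e2 := Nat.div_add_mod (b - g ^ 2) (g + 1)
    rw [h2b, add_zero] at e2
    refine ⟨(b - g ^ 2) / (g + 1), ?_, h, ?_⟩
    · by_contra h0
      have : (b - g ^ 2) / (g + 1) = 0 := Nat.lt_one_iff.1 (not_le.1 h0)
      rw [this] at e2
      omega
    · have : (b - g ^ 2) / (g + 1) * g + (b - g ^ 2) / (g + 1) = b - g ^ 2 := by
        rw [← e2]
        have e3 : (g + 1) * ((b - g ^ 2) / (g + 1)) / (g + 1) = (b - g ^ 2) / (g + 1) :=
          Nat.mul_div_cancel_left _ (by omega)
        rw [e3]
        ring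
      omega
  · omega

theorem let_pair (g m : ℕ) (hm : 1 ≤ m) (hmg : m < g) :
    let' g (m * g) = let' g (m * g + m + g ^ 2) := by
  have h1 : m * g < g ^ 2 := by nlinarith
  unfold let'
  rw [if_neg (by omega), if_pos]
  · have : m * g + m + g ^ 2 - g ^ 2 = m * (g + 1) := by
      rw [Nat.add_sub_cancel]; ring
    rw [this, Nat.mul_div_cancel _ (by omega)]
  · constructor
    · nlinarith
    · have : m * g + m + g ^ 2 - g ^ 2 = m * (g + 1) := by
        rw [Nat.add_sub_cancel]; ring
      rw [this, Nat.mul_mod_left]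

/-- the string, over the alphabet `Fin (2 g^2)` -/
def str (g : ℕ) : List (Fin (2 * g ^ 2)) :=
  List.ofFn fun j : Fin (2 * g ^ 2) => ⟨let' g j, let_lt g j j.isLt⟩

theorem str_length (g : ℕ) : (str g).length = 2 * g ^ 2 := by simp [str]

theorem str_get (g j : ℕ) (h : j < (str g).length) :
    ((str g)[j]).val = let' g j := by
  simp [str]

/-- the window of length `l` at `i` -/
def win (g i l : ℕ) : List (Fin (2 * g ^ 2)) := ((str g).drop i).take l

theorem win_length (g i l : ℕ) (h : i + l ≤ 2 * g ^ 2) : (win g i l).length = l := by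
  unfold win
  rw [List.length_take, List.length_drop, str_length]
  omega

theorem win_get (g i l t : ℕ) (ht : t < (win g i l).length) :
    ((win g i l)[t]).val = let' g (i + t) := by
  simp only [win, List.getElem_take, List.getElem_drop]
  apply str_get

theorem win_infix (g i l : ℕ) : win g i l <:+: str g :=
  (List.take_prefix l _).isInfix.trans (List.drop_suffix i _).isInfix

theorem win_split (g i k : ℕ) : win g i (2 * k) = win g i k ++ win g (i + k) k := by
  unfold win
  have : 2 * k = k + k := by ring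
  rw [this, List.take_add, List.drop_drop]

/-- windows of length at most `g^2 + 1` have pairwise distinct letters -/
theorem win_nodup (g i k : ℕ) (h : i + k ≤ 2 * g ^ 2) (hk : k ≤ g ^ 2 + 1) : (win g i k).Nodup := by
  rw [List.nodup_iff_injective_getElem]
  intro a b hab
  have hlen := win_length g i k h
  have key : ∀ a b : ℕ, (ha : a < (win g i k).length) → (hb : b < (win g i k).length) →
      (win g i k)[a] = (win g i k)[b] → ¬ a < b := by
    intro a b ha hb hab hlt
    have h1 := congrArg Fin.val hab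
    rw [win_get, win_get] at h1
    obtain ⟨m, hm1, hm2, hm3⟩ := let_eq g (i + a) (i + b) (by omega) (by omega) h1
    omega
  apply Fin.ext
  rcases lt_trichotomy a.val b.val with h1 | h1 | h1
  · exact absurd h1 (key a b a.isLt b.isLt hab)
  · exact h1
  · exact absurd h1 (key b a b.isLt a.isLt hab.symm)

theorem pequiv_of_nodup {A : Type} (x y : List A) (hx : x.Nodup) (hy : y.Nodup)
    (h : x.length = y.length) : PEquiv x y := by
  have hmt : MulAction.IsMultiplyPretransitive (Equiv.Perm A) A x.length :=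
    Equiv.Perm.isMultiplyPretransitive A x.length
  let ex : Fin x.length ↪ A := ⟨fun i => x[i], List.nodup_iff_injective_getElem.1 hx⟩
  let ey : Fin x.length ↪ A := ⟨fun i => y[i.val]'(by have := i.isLt; omega), by
    intro i j hij
    have h1 := List.nodup_iff_injective_getElem.1 hy
    have h2 : (⟨i.val, by have := i.isLt; omega⟩ : Fin y.length) = ⟨j.val, by have := j.isLt; omega⟩ :=
      h1 hij
    apply Fin.ext
    simpa using h2⟩
  obtain ⟨f, hf⟩ := MulAction.exists_smul_eq (Equiv.Perm A) ex ey
  refine ⟨f, ?_⟩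
  apply List.ext_getElem
  · simpa using h
  · intro i h1 h2
    rw [List.getElem_map]
    have h3 := congrArg (fun e : Fin x.length ↪ A => e ⟨i, by simpa using h1⟩) hf
    exact h3

theorem win_psq (g i k : ℕ) (hk : 1 ≤ k) (hk' : k ≤ g ^ 2) (h : i + 2 * k ≤ 2 * g ^ 2) :
    PSq (win g i (2 * k)) := by
  refine ⟨win g i k, win g (i + k) k, ?_, win_split g i k, ?_⟩
  · intro hnil
    have := congrArg List.length hnil
    rw [win_length g i k (by omega)] at this
    simp at this
    omega
  · apply pequiv_of_nodup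
    · exact win_nodup g i k (by omega) (by omega)
    · exact win_nodup g (i + k) k (by omega) (by omega)
    · rw [win_length g i k (by omega), win_length g (i + k) k (by omega)]

theorem PEquiv.refl {A : Type} (x : List A) : PEquiv x x := ⟨Equiv.refl A, by simp⟩

/-- a window containing a pair determines its position -/
theorem win_inj (g i i' k m : ℕ) (hm : 1 ≤ m) (hmg : m < g) (h1 : i ≤ m * g)
    (h2 : m * g + m + g ^ 2 < i + 2 * k) (h : i + 2 * k ≤ 2 * g ^ 2) (h' : i' + 2 * k ≤ 2 * g ^ 2)
    (he : PEquiv (win g i (2 * k)) (win g i' (2 * k))) : i = i' := by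
  obtain ⟨f, hf⟩ := he
  have l1 := win_length g i (2 * k) h
  have l2 := win_length g i' (2 * k) h'
  have hp : m * g - i < (win g i (2 * k)).length := by omega
  have hq : m * g + m + g ^ 2 - i < (win g i (2 * k)).length := by omega
  have hp' : m * g - i < (win g i' (2 * k)).length := by omega
  have hq' : m * g + m + g ^ 2 - i < (win g i' (2 * k)).length := by omega
  have e1 : (win g i (2 * k))[m * g - i] = (win g i (2 * k))[m * g + m + g ^ 2 - i] := by
    apply Fin.ext
    rw [win_get, win_get]
    have a1 : i + (m * g - i) = m * g := by omega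
    have a2 : i + (m * g + m + g ^ 2 - i) = m * g + m + g ^ 2 := by omega
    rw [a1, a2]
    exact let_pair g m hm hmg
  have e2 : (win g i' (2 * k))[m * g - i] = (win g i' (2 * k))[m * g + m + g ^ 2 - i] := by
    simp only [← hf]
    rw [List.getElem_map, List.getElem_map, e1]
  have e3 := congrArg Fin.val e2
  rw [win_get, win_get] at e3
  obtain ⟨m', hm1, hm2, hm3⟩ := let_eq g _ _ (by omega) (by omega) e3
  have hmm : m = m' := by omega
  subst hmm
  omega

theorem PS_ge (g : ℕ) (hg : 2 ≤ g) (hev : Even g) :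
    (g ^ 2 / 2 - g + 1) ^ 2 ≤ PS (str g) := by
  set T : ℕ := g ^ 2 / 2 - g with hT
  have hg2 : 2 * (g ^ 2 / 2) = g ^ 2 := by
    obtain ⟨r, hr⟩ := hev
    have : g ^ 2 = 2 * (2 * r ^ 2) := by rw [hr]; ring
    rw [this]
    omega
  have hg3 : 2 * g ≤ g ^ 2 := by nlinarith
  have hT2 : 2 * T + 2 * g = g ^ 2 := by omega
  -- index set
  set S : Finset (Σ _ : ℕ, ℕ) := (Finset.range (T + 1)).sigma fun t => Finset.range (2 * t + 1) with hS
  have hcard : S.card = (T + 1) ^ 2 := by
    rw [hS, Finset.card_sigma]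
    simp only [Finset.card_range]
    clear_value T
    clear hT hT2 hS
    induction T with
    | zero => simp
    | succ T ih =>
      rw [Finset.sum_range_succ, ih]
      ring
  rw [← hcard]
  unfold PS
  set Q : Set (Set (List (Fin (2 * g ^ 2)))) :=
    {C | ∃ w, w <:+: str g ∧ PSq w ∧ C = {v | PEquiv w v}} with hQ
  have hfin : Q.Finite := by
    have h1 : {s : List (Fin (2 * g ^ 2)) | s <:+: str g}.Finite := by
      apply Set.Finite.subset (List.finite_toSet (str g).sublists)
      intro s hs
      simp only [Set.mem_ofPred_eq, List.mem_sublists] at hs ⊢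
      exact hs.sublist
    apply (h1.image fun w => {v | PEquiv w v}).subset
    rintro C ⟨w, h2, _, rfl⟩
    exact ⟨w, h2, rfl⟩
  set F : (Σ _ : ℕ, ℕ) → Set (List (Fin (2 * g ^ 2))) :=
    fun p => {v | PEquiv (win g p.2 (2 * (g ^ 2 - p.1))) v} with hF
  have hinj : Set.InjOn F S := by
    rintro ⟨t, i⟩ hp ⟨t', i'⟩ hp' heq
    simp only [hS, Finset.coe_sigma, Set.mem_sigma_iff, Finset.coe_range, Set.mem_Iio] at hp hp'
    have h1 : win g i' (2 * (g ^ 2 - t')) ∈ F ⟨t, i⟩ := by
      rw [heq]
      exact PEquiv.refl _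
    obtain ⟨f, hf⟩ := h1
    simp only at hf
    have hlen := congrArg List.length hf
    rw [List.length_map, win_length g i _ (by omega), win_length g i' _ (by omega)] at hlen
    have htt : t = t' := by omega
    subst htt
    -- a pair inside the window
    have hii : i = i' := by
      obtain ⟨m, hm1, hm2, hm3⟩ : ∃ m, 1 ≤ m ∧ i ≤ m * g ∧ m * g ≤ i + g := by
        refine ⟨i / g + 1, Nat.le_add_left _ _, ?_, ?_⟩
        · have := Nat.lt_div_mul_add (a := i) (show 0 < g by omega)
          rw [add_mul, one_mul]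
          omega
        · have := Nat.div_mul_le_self i g
          rw [add_mul, one_mul]
          omega
      have hmg : m < g := by
        by_contra hcon
        push Not at hcon
        have : g * g ≤ m * g := Nat.mul_le_mul_right _ hcon
        have : g ^ 2 = g * g := by ring
        omega
      exact win_inj g i i' (g ^ 2 - t) m hm1 hmg hm2 (by omega) (by omega) (by omega) ⟨f, hf⟩
    rw [hii]
  have h1 : (F '' S).ncard = S.card := by
    rw [hinj.ncard_image, Set.ncard_coe_finset]
  rw [← h1]
  apply Set.ncard_le_ncard _ hfin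
  rintro _ ⟨⟨t, i⟩, hp, rfl⟩
  simp only [hS, Finset.coe_sigma, Set.mem_sigma_iff, Finset.coe_range, Set.mem_Iio] at hp
  refine ⟨win g i (2 * (g ^ 2 - t)), win_infix g i _, ?_, rfl⟩
  exact win_psq g i _ (by omega) (by omega) (by omega)

/-- For every even `g ≥ 2` there is a string of length `n = 2 g^2` with at least
`(g^2/2 - g + 1)^2`, that is about `n^2/16`, non-equivalent parameterized squares. In particular for
every `C` there is a string `s` with `PS(s) > C |s|`, and the inequality `PS(s) < |s|` fails for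
some non-empty string. -/
theorem result :
    (∀ g : ℕ, 2 ≤ g → Even g → ∃ s : List (Fin (2 * g ^ 2)), s.length = 2 * g ^ 2 ∧
      (g ^ 2 / 2 - g + 1) ^ 2 ≤ PS s) ∧
    (∀ C : ℕ, ∃ (σ : ℕ) (s : List (Fin σ)), 1 ≤ s.length ∧ C * s.length < PS s) ∧
    (∃ (σ : ℕ) (s : List (Fin σ)), 1 ≤ s.length ∧ ¬ PS s < s.length) := by
  have h1 : ∀ C : ℕ, ∃ (σ : ℕ) (s : List (Fin σ)), 1 ≤ s.length ∧ C * s.length < PS s := by
    intro C
    set g : ℕ := 4 * C + 8 with hg
    refine ⟨2 * g ^ 2, str g, ?_, ?_⟩
    · rw [str_length]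
      have : 0 < g ^ 2 := by positivity
      omega
    · rw [str_length]
      refine lt_of_lt_of_le ?_ (PS_ge g (by omega) ⟨2 * C + 4, by omega⟩)
      have e : g ^ 2 / 2 - g + 1 = 8 * C ^ 2 + 28 * C + 25 := by
        have : g ^ 2 = 2 * (8 * C ^ 2 + 32 * C + 32) := by rw [hg]; ring
        rw [this, Nat.mul_div_cancel_left _ (by norm_num)]
        omega
      rw [e, hg]
      nlinarith [Nat.zero_le C, Nat.zero_le (C ^ 2), Nat.zero_le (C ^ 3)]
  refine ⟨fun g hg hev => ⟨str g, str_length g, PS_ge g hg hev⟩, h1, ?_⟩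
  obtain ⟨σ, s, hs, h⟩ := h1 1
  exact ⟨σ, s, hs, by omega⟩

end Pool.Agent.Results.MP_435f72_co.QuadraticPS
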